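import Pool.Agent.V5helper49.PTR.Stm

/-!
# Project PTR, job CT: counting in an interval
-/

set_option autoImplicit false

namespace Pool.Agent.V5helper65.PTR.CT

open Finset Filter
open Pool.Agent.V5helper49.PTR

/-- **PT-CT** -/
theorem t_CT : S_CT := by
  classical
  intro s hs M hM
  obtain ⟨m₀, hm₀⟩ := Filter.eventually_atTop.1 hM
  refine ⟨2 * m₀ + 3, ?_⟩
  intro N' hN' N x h1 h2
  obtain ⟨L, hL⟩ : ∃ L : ℝ, L = Real.log N' := ⟨_, rfl⟩
  rw [← hL] at h1
  have hN'3 : (3 : ℝ) ≤ N' := by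
    have : 3 ≤ N' := by omega
    exact_mod_cast this
  have hL1 : 1 ≤ L := by
    rw [hL, Real.le_log_iff_exp_le (by linarith)]
    linarith [Real.exp_one_lt_d9]
  have hLs : L ^ 2 ≤ L ^ s := pow_le_pow_right₀ hL1 hs
  have hL2 : 1 ≤ L ^ 2 := one_le_pow₀ hL1
  have hN0 : (0 : ℝ) ≤ N := Nat.cast_nonneg _
  have hx4 : (4 : ℝ) ≤ x := by linarith
  have hx12 : (x : ℝ) ^ 12 ≤ N' := by
    calc (x : ℝ) ^ 12 ≤ ((N' : ℝ) ^ (1 / 12 : ℝ)) ^ 12 := pow_le_pow_left₀ (Nat.cast_nonneg _) h2 12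
      _ = N' := by
        rw [← Real.rpow_natCast, ← Real.rpow_mul (Nat.cast_nonneg _)]
        norm_num
  have hx : (4 : ℝ) * x ≤ N' := by
    have e1 : (4 : ℝ) ≤ (x : ℝ) ^ 11 := by
      calc (4 : ℝ) ≤ 4 ^ 11 := by norm_num
        _ ≤ (x : ℝ) ^ 11 := pow_le_pow_left₀ (by norm_num) hx4 11
    calc (4 : ℝ) * x ≤ (x : ℝ) ^ 11 * x := by gcongr
      _ = (x : ℝ) ^ 12 := by ring
      _ ≤ N' := hx12
  have hxn : 4 * x ≤ N' := by exact_mod_cast hx
  have hx4n : 4 ≤ x := by exact_mod_cast hx4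
  have h2N : (2 : ℝ) * N ≤ x := by
    have : 0 ≤ L ^ s := by linarith
    linarith
  have h2Nn : 2 * N ≤ x := by exact_mod_cast h2N
  obtain ⟨m, hm⟩ : ∃ m, m = N' - x - 1 := ⟨_, rfl⟩
  obtain ⟨y, hy⟩ : ∃ y, y = x - N := ⟨_, rfl⟩
  have hmN : m + y + N + 1 = N' := by omega
  have hyR : (y : ℝ) = x - N := by
    have : y + N = x := by omega
    have : (y : ℝ) + N = x := by exact_mod_cast this
    linarith
  have hmle : (m : ℝ) ≤ N' := by
    have : m ≤ N' := by omega
    exact_mod_cast this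
  have hm2 : (2 : ℝ) ≤ m := by
    have : 2 ≤ m := by omega
    exact_mod_cast this
  have hlm : Real.log m ≤ L := by
    rw [hL]
    exact Real.log_le_log (by linarith) hmle
  have hlm0 : 0 < Real.log m := Real.log_pos (by linarith)
  have hcond : Real.log m ^ s ≤ (y : ℝ) := by
    have e1 : Real.log m ^ s ≤ L ^ s := pow_le_pow_left₀ hlm0.le hlm s
    rw [hyR]
    linarith
  have hcnt := (hm₀ m (by omega) y hcond (by omega)).1
  have hcard : ((Ioc m (m + y)).filter (fun n => n ∈ M)).card ≤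
      ((Ioc N x).filter (fun k => N' - k ∈ M)).card := by
    refine Finset.card_le_card_of_injOn (fun j => N' - j) ?_ ?_
    · intro j hj
      rw [Finset.mem_coe, mem_filter, mem_Ioc] at hj
      rw [Finset.mem_coe, mem_filter, mem_Ioc]
      have e1 : N' - (N' - j) = j := by omega
      refine ⟨⟨?_, ?_⟩, ?_⟩
      · show N < N' - j
        omega
      · show N' - j ≤ x
        omega
      · show N' - (N' - j) ∈ M
        rw [e1]
        exact hj.2
    · intro j hj j' hj' h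
      rw [Finset.mem_coe, mem_filter, mem_Ioc] at hj hj'
      simp only at h
      omega
  have hcardR : (((Ioc m (m + y)).filter (fun n => n ∈ M)).card : ℝ) ≤
      (((Ioc N x).filter (fun k => N' - k ∈ M)).card : ℝ) := by exact_mod_cast hcard
  refine le_trans ?_ (hcnt.trans hcardR)
  have hs0 : 0 ≤ Real.sqrt x := Real.sqrt_nonneg _
  have hss : Real.sqrt x * Real.sqrt x = x := Real.mul_self_sqrt (Nat.cast_nonneg _)
  have h2L : 2 * L ≤ Real.sqrt x := by
    apply Real.le_sqrt_of_sq_le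
    nlinarith
  calc Real.sqrt x / 2 ≤ (x / 2) / (2 * L) := by
        rw [div_le_div_iff₀ (by norm_num) (by linarith)]
        nlinarith
    _ ≤ (y : ℝ) / (2 * L) := by
        apply div_le_div_of_nonneg_right _ (by linarith)
        rw [hyR]; linarith
    _ ≤ (y : ℝ) / (2 * Real.log m) := by
        apply div_le_div_of_nonneg_left (Nat.cast_nonneg _) (by linarith)
        linarith

end Pool.Agent.V5helper65.PTR.CT
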